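import Pool.Agent.H51.CST.Targets

/-!
Row NVL of the board cst_modules (MP_11d263_co): non-vanishing of sums of `q`-th powers of power
series.
-/

set_option autoImplicit false

namespace Pool.Agent.H11.CST

open Pool.Agent.H51.CST

/-- The `q`-th power over the field with `q` elements is the expansion. -/
theorem pow_card_eq {k : Type} [Field k] [Finite k] (w : PowerSeries k) :
    w ^ Nat.card k = PowerSeries.expand (Nat.card k) Nat.card_pos.ne' w := by
  classical
  have _ : Fintype k := Fintype.ofFinite k
  obtain ⟨p, hp⟩ := CharP.exists k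
  have _ : Fact p.Prime := ⟨CharP.char_is_prime k p⟩
  obtain ⟨n, _, hn⟩ := FiniteField.card k p
  have hc : Nat.card k = p ^ (n : ℕ) := by rw [Nat.card_eq_fintype_card, hn]
  have h0 : iterateFrobenius k p n = RingHom.id k := by
    ext x
    rw [iterateFrobenius_def, ← hn, FiniteField.pow_card, RingHom.id_apply]
  have hp0 : p ≠ 0 := (Fact.out : p.Prime).ne_zero
  have h1 := MvPowerSeries.map_iterateFrobenius_expand (σ := Unit) p hp0 w n
  rw [h0] at h1
  have h2 : MvPowerSeries.expand (p ^ (n : ℕ)) (pow_ne_zero n hp0) w = w ^ p ^ (n : ℕ) := by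
    rw [← h1]
    exact (MvPowerSeries.map_id (σ := Unit) (R := k) ▸ rfl)
  rw [PowerSeries.expand]
  simp only [hc]
  exact h2.symm

theorem coeff_mul_expand {k : Type} [Field k] (q : ℕ) (hq : q ≠ 0) (c w : PowerSeries k)
    (N : ℕ) : (c * PowerSeries.expand q hq w).coeff N =
      ∑ m ∈ Finset.range (N / q + 1), c.coeff (N - q * m) * w.coeff m := by
  rw [mul_comm, PowerSeries.coeff_mul,
    Finset.Nat.sum_antidiagonal_eq_sum_range_succ_mk]
  symm
  have h1 : ∑ m ∈ Finset.range (N / q + 1), c.coeff (N - q * m) * w.coeff m =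
      ∑ b ∈ (Finset.range (N / q + 1)).image (q * ·),
        (PowerSeries.expand q hq w).coeff b * c.coeff (N - b) := by
    rw [Finset.sum_image (fun a _ b _ h => Nat.eq_of_mul_eq_mul_left (Nat.pos_of_ne_zero hq) h)]
    refine Finset.sum_congr rfl fun m _ => ?_
    rw [PowerSeries.coeff_expand_mul, mul_comm]
  rw [h1]
  refine Finset.sum_subset ?_ ?_
  · intro b hb
    obtain ⟨m, hm, rfl⟩ := Finset.mem_image.1 hb
    rw [Finset.mem_range] at hm ⊢
    have := Nat.mul_div_le N q
    have h2 : q * m ≤ q * (N / q) := Nat.mul_le_mul_left q (by omega)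
    show q * m < N + 1
    omega
  · intro b hb hb'
    by_cases hd : q ∣ b
    · exfalso
      obtain ⟨m, rfl⟩ := hd
      refine hb' (Finset.mem_image.2 ⟨m, ?_, rfl⟩)
      rw [Finset.mem_range] at hb ⊢
      have : m ≤ N / q := (Nat.le_div_iff_mul_le (Nat.pos_of_ne_zero hq)).2 (by
        rw [mul_comm]
        omega)
      omega
    · rw [PowerSeries.coeff_expand_of_not_dvd q hq _ hd, zero_mul]

/-- Row NVL. -/
theorem pf_NVL : T_NVL := by
  intro k _ _ n w c hw hc h0
  set q := Nat.card k with hq
  have hq0 : q ≠ 0 := Nat.card_pos.ne'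
  have key : ∀ m : ℕ, ∑ i, (w i).coeff m • c i = 0 := by
    intro m
    induction m using Nat.strong_induction_on with
    | _ m ih =>
    by_contra hne
    have ho := hc (fun i => (w i).coeff m) hne
    set d : PowerSeries k := ∑ i, (w i).coeff m • c i with hd
    have hfin : d.order ≠ ⊤ := ne_top_of_lt ho
    obtain ⟨r, hr⟩ := ENat.ne_top_iff_exists.1 hfin
    have hr' : r < q := by
      rw [← hr] at ho
      exact_mod_cast ho
    have hcr : d.coeff r ≠ 0 := by
      have := PowerSeries.coeff_order hne
      rw [← hr] at this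
      simpa using this
    apply hcr
    have h1 : (∑ i, c i * w i ^ q).coeff (q * m + r) = 0 := by rw [h0]; simp
    rw [map_sum] at h1
    have h2 : ∀ i, (c i * w i ^ q).coeff (q * m + r) =
        ∑ j ∈ Finset.range (m + 1), (c i).coeff (q * m + r - q * j) * (w i).coeff j := by
      intro i
      rw [hq, pow_card_eq, coeff_mul_expand]
      have h3 : (Nat.card k * m + r) / Nat.card k = m := by
        rw [Nat.mul_add_div (Nat.pos_of_ne_zero hq0), Nat.div_eq_of_lt hr', add_zero]
      rw [h3]
    simp only [h2] at h1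
    rw [Finset.sum_comm] at h1
    have h4 : ∀ j, ∑ i, (c i).coeff (q * m + r - q * j) * (w i).coeff j =
        (∑ i, (w i).coeff j • c i).coeff (q * m + r - q * j) := by
      intro j
      rw [map_sum]
      refine Finset.sum_congr rfl fun i _ => ?_
      rw [PowerSeries.coeff_smul, smul_eq_mul, mul_comm]
    simp only [h4] at h1
    rw [Finset.sum_range_succ, Finset.sum_eq_zero] at h1
    · rw [zero_add] at h1
      have h5 : q * m + r - q * m = r := by omega
      rwa [h5] at h1
    · intro j hj
      rw [ih j (Finset.mem_range.1 hj), map_zero]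
  have key2 : ∀ (j : ℕ), ∑ i, (c i).coeff j • w i = 0 := by
    intro j
    ext m
    have h6 := congrArg (fun f => PowerSeries.coeff j f) (key m)
    simp only [map_sum, PowerSeries.coeff_smul, smul_eq_mul, map_zero] at h6
    rw [map_sum, map_zero, ← h6]
    refine Finset.sum_congr rfl fun i _ => ?_
    rw [PowerSeries.coeff_smul, smul_eq_mul, mul_comm]
  intro i
  ext j
  rw [map_zero]
  exact Fintype.linearIndependent_iff.1 hw _ (key2 j) i

end Pool.Agent.H11.CST
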